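import Pool.Agent.K6.H56.TL.FIN

/-!
# MP_047cd2_co, Q1: among all planar lattice sections the square one spans asymptotically the
fewest distinct triangles

The plane is `ℂ`.  For `P ⊆ ℂ` let `T P` be the number of congruence classes of nondegenerate
triangles with vertices in `P`, and for `a, b : ℂ` linearly independent over `ℝ` let `sec a b n` be
`{u a + v b : u, v ∈ ℤ, 0 ≤ u, v < √n}`.

We prove, for all linearly independent `a, b`,

* `liminf T(L_{1,i}(n))/n² ≤ liminf T(L_{a,b}(n))/n²` (the statement of the problem), and more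
  precisely, for every `ε > 0` and all large `n`, `T(L_{1,i}(n)) ≤ T(L_{a,b}(n)) + ε n²`;
* `T(L_{1,i}(n)) ≤ (3/16 + ε) n²` for all large `n`, and `5/32 ≤ c₀` (so `5/32 ≤ c₀ ≤ 3/16`);
* if `b ≠ ± i a`, then `T(L_{a,b}(n)) ≥ (3/16 - ε) n²` for all large `n`.

Proof: `12 T` is at least the number of oriented Gram data of the pairs of lattice vectors that
fit into the box; Cauchy-Schwarz bounds it from below by the number of pairs (`9 N⁴`, `N = ⌈√n⌉`,
after adding the images of the family under the rotations of the lattice) divided by the sum over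
all coincidence rotations `ρ` of the lattice `L` of `[L : L ∩ ρ⁻¹ L]⁻²`; this sum is at most `4` for
all lattices, except those with rotations of order `4` or `3`, where it is at most `24/5` and
`432/65`.

The pieces of the proof were written by the helpers named in the departures files.
-/

set_option autoImplicit false

open scoped BigOperators
open Filter

namespace Pool.Agent.Results.MP_047cd2_co.SquareLatticeMinimises

/-- `t` is the vertex set of a nondegenerate triangle: three points which are not collinear. -/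
def IsTri (t : Set ℂ) : Prop :=
  ∃ p q r : ℂ, t = {p, q, r} ∧ ¬ Collinear ℝ ({p, q, r} : Set ℂ)

/-- Congruence: some isometry of the plane maps `s` onto `t`. -/
def Cong (s t : Set ℂ) : Prop := ∃ f : ℂ ≃ᵢ ℂ, f '' s = t

/-- The triangles with vertices in `P`. -/
def tris (P : Set ℂ) : Set (Set ℂ) := {t | t ⊆ P ∧ IsTri t}

/-- The number of congruence classes of triangles with vertices in `P`. -/
noncomputable def T (P : Set ℂ) : ℕ :=
  Set.ncard {c : Set (Set ℂ) | ∃ t ∈ tris P, c = {s | s ∈ tris P ∧ Cong t s}}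

/-- The lattice section `L_{a,b}(n) = {u a + v b : u, v integers, 0 ≤ u, v < √n}`. -/
def sec (a b : ℂ) (n : ℕ) : Set ℂ :=
  {z | ∃ u v : ℕ, (u : ℝ) < Real.sqrt n ∧ (v : ℝ) < Real.sqrt n ∧ z = u * a + v * b}

/-- Q1 has the answer yes: the square lattice minimises. -/
theorem result :
    -- the statement of the problem
    (∀ a b : ℂ, LinearIndependent ℝ ![a, b] →
      liminf (fun n : ℕ => (T (sec 1 Complex.I n) : ℝ) / (n : ℝ) ^ 2) atTop
        ≤ liminf (fun n : ℕ => (T (sec a b n) : ℝ) / (n : ℝ) ^ 2) atTop) ∧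
    -- comparison for all large `n`
    (∀ a b : ℂ, LinearIndependent ℝ ![a, b] → ∀ ε : ℝ, 0 < ε → ∀ᶠ n : ℕ in atTop,
      (T (sec 1 Complex.I n) : ℝ) ≤ (T (sec a b n) : ℝ) + ε * (n : ℝ) ^ 2) ∧
    -- all lattice sections but the similar images of the square one
    (∀ a b : ℂ, LinearIndependent ℝ ![a, b] → b ≠ a * Complex.I → b ≠ a * (-Complex.I) →
      ∀ ε : ℝ, 0 < ε → ∀ᶠ n : ℕ in atTop,
        (3 / 16 - ε) * (n : ℝ) ^ 2 ≤ (T (sec a b n) : ℝ)) ∧
    -- the square lattice
    (∀ ε : ℝ, 0 < ε → ∀ᶠ n : ℕ in atTop,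
      (T (sec 1 Complex.I n) : ℝ) ≤ (3 / 16 + ε) * (n : ℝ) ^ 2) ∧
    ((5 : ℝ) / 32 ≤ liminf (fun n : ℕ => (T (sec 1 Complex.I n) : ℝ) / (n : ℝ) ^ 2) atTop ∧
      liminf (fun n : ℕ => (T (sec 1 Complex.I n) : ℝ) / (n : ℝ) ^ 2) atTop ≤ 3 / 16) ∧
    -- the lower limits above are those of bounded functions
    (∀ a b : ℂ, LinearIndependent ℝ ![a, b] → ∀ᶠ n : ℕ in atTop,
      (T (sec a b n) : ℝ) ≤ 18 * (n : ℝ) ^ 2) :=
  ⟨Pool.Agent.K6.H56.TL.FIN.main, Pool.Agent.K6.H56.TL.FIN.ev_main,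
    Pool.Agent.K6.H56.TL.FIN.ev_others, Pool.Agent.K6.H56.TL.FIN.ev_upper,
    ⟨Pool.Agent.K6.H56.TL.FIN.lower_sq,
      Pool.Agent.K6.H56.TL.MAIN.hup Pool.Agent.K6.H56.TL.FIN.cf Pool.Agent.K6.H56.TL.FIN.up⟩,
    Pool.Agent.K6.H56.TL.FIN.ev_bdd⟩

end Pool.Agent.Results.MP_047cd2_co.SquareLatticeMinimises
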